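import Pool.Agent.H4.SE.Targets

set_option autoImplicit false

namespace Pool.Agent.H50.SAE.PO

open Finset Pool.Agent.H4.SE

theorem isPart_mem {α : Type} {A : Finset α} {P : Finset (Finset α)} (h : IsPart A P) :
    P ∈ A.powerset.powerset := by
  rw [Finset.mem_powerset]
  intro X hX
  rw [Finset.mem_powerset]
  intro a ha
  exact (h.un a).2 ⟨X, hX, ha⟩

theorem isPart_sing {α : Type} (A : Finset α) : ∃ P : Finset (Finset α), IsPart A P := by
  classical
  refine ⟨A.image fun a => {a}, ?_, ?_, ?_⟩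
  · intro h
    rw [Finset.mem_image] at h
    obtain ⟨a, _, ha⟩ := h
    exact Finset.singleton_ne_empty a ha
  · intro X hX Y hY hne
    rw [Finset.mem_image] at hX hY
    obtain ⟨a, _, rfl⟩ := hX
    obtain ⟨b, _, rfl⟩ := hY
    rw [Finset.disjoint_singleton]
    intro hab
    exact hne (by rw [hab])
  · intro a
    constructor
    · intro ha
      exact ⟨{a}, Finset.mem_image.2 ⟨a, ha, rfl⟩, Finset.mem_singleton_self a⟩
    · rintro ⟨X, hX, haX⟩
      rw [Finset.mem_image] at hX
      obtain ⟨b, hb, rfl⟩ := hX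
      rw [Finset.mem_singleton] at haX
      rw [haX]
      exact hb

theorem pf_PO : T_PO := by
  classical
  intro α ρ l A
  have hne : ((A.powerset.powerset).filter fun P => IsPart A P).Nonempty := by
    obtain ⟨P, hP⟩ := isPart_sing A
    exact ⟨P, Finset.mem_filter.2 ⟨isPart_mem hP, hP⟩⟩
  obtain ⟨P0, hP0, hmin⟩ := Finset.exists_min_image
    ((A.powerset.powerset).filter fun P => IsPart A P) (vl ρ l) hne
  have hne2 : (((A.powerset.powerset).filter fun P => IsPart A P).filter
      fun P => vl ρ l P ≤ vl ρ l P0).Nonempty :=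
    ⟨P0, Finset.mem_filter.2 ⟨hP0, le_refl _⟩⟩
  obtain ⟨P1, hP1, hmin1⟩ := Finset.exists_min_image _ Finset.card hne2
  rw [Finset.mem_filter, Finset.mem_filter] at hP1
  refine ⟨P1, ⟨hP1.1.2, ?_⟩, ?_⟩
  · intro P' hP'
    exact le_trans hP1.2 (hmin P' (Finset.mem_filter.2 ⟨isPart_mem hP', hP'⟩))
  · intro P' hP' hle
    apply hmin1 P'
    rw [Finset.mem_filter, Finset.mem_filter]
    exact ⟨⟨isPart_mem hP', hP'⟩, le_trans hle hP1.2⟩

end Pool.Agent.H50.SAE.PO
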